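import Mathlib
import Pool.Agent.K4H35.TN.SS

/-!
# The spaces of equivariant maps
-/

set_option autoImplicit false

namespace Pool.Agent.K4H54.PT

open Module Pool.Agent.K4H35.TN

variable {T E : Type} [Field E] {V W : Type} [AddCommGroup V] [Module E V] [AddCommGroup W]
  [Module E W]

/-- the linear maps which commute with the operators -/
def homs (f : T → V →ₗ[E] V) (g : T → W →ₗ[E] W) : Submodule E (V →ₗ[E] W) where
  carrier := {Φ | ∀ θ x, Φ (f θ x) = g θ (Φ x)}
  zero_mem' := fun θ x => by rw [LinearMap.zero_apply, LinearMap.zero_apply, map_zero]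
  add_mem' := fun {Φ Ψ} h1 h2 θ x => by
    rw [LinearMap.add_apply, LinearMap.add_apply, h1, h2, map_add]
  smul_mem' := fun r Φ h θ x => by
    rw [LinearMap.smul_apply, LinearMap.smul_apply, h, map_smul]

end Pool.Agent.K4H54.PT
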