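import Mathlib
import Pool.Agent.K4H35.TN.SS
import Pool.Agent.K4H54.PT.Homs

/-!
# The inequality of Cauchy and Schwarz for the dimensions of the spaces of equivariant maps

(Formalised by helper99.)
-/

set_option linter.unusedSectionVars false
set_option linter.unusedVariables false

namespace Pool.Agent.K4H54.PT

open Module Pool.Agent.K4H35.TN

noncomputable section

variable {T E : Type} [Field E]

theorem SS_restrict {V : Type} [AddCommGroup V] [Module E V] {f : T → V →ₗ[E] V} (hf : SS f)
    {U : Submodule E V} (hU : Stb f U) : SS fun t => (f t).restrict (hU t) := by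
  intro W hW
  obtain ⟨C, hC, h1⟩ := hf (W.map U.subtype) fun t x hx => by
    obtain ⟨w, hw, rfl⟩ := hx
    exact ⟨_, hW t w hw, rfl⟩
  refine ⟨C.comap U.subtype, fun t x hx => hC t x.1 hx, isCompl_mk ?_ ?_⟩
  · intro x hx hx'
    exact Subtype.ext (eq_zero h1 ⟨x, hx, rfl⟩ hx')
  · intro x
    obtain ⟨_, ⟨w, hw, rfl⟩, c, hc, h2⟩ := exists_add h1 (x : V)
    refine ⟨w, hw, x - w, ?_, (add_sub_cancel _ _).symm⟩
    have h3 : (x : V) - (w : V) = c := by
      rw [h2]
      exact add_sub_cancel_left _ _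
    change (x : V) - (w : V) ∈ C
    rw [h3]
    exact hc

/-- A finite dimensional space with a family of operators. -/
structure Obj (T E : Type) [Field E] where
  /-- the space -/
  V : Type
  [grp : AddCommGroup V]
  [mod : Module E V]
  [fin : FiniteDimensional E V]
  /-- the operators -/
  f : T → V →ₗ[E] V

attribute [instance] Obj.grp Obj.mod Obj.fin

namespace Obj

/-- The dimension of the space of equivariant maps. -/
def h (A B : Obj T E) : ℕ := finrank E (homs A.f B.f)

/-- Isomorphic. -/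
def Iso (A B : Obj T E) : Prop := ∃ e : A.V ≃ₗ[E] B.V, ∀ t x, e (A.f t x) = B.f t (e x)

theorem Iso.refl (A : Obj T E) : Iso A A := ⟨LinearEquiv.refl E A.V, fun _ _ => rfl⟩

theorem Iso.symm {A B : Obj T E} (h : Iso A B) : Iso B A := by
  obtain ⟨e, he⟩ := h
  refine ⟨e.symm, fun t x => ?_⟩
  rw [LinearEquiv.symm_apply_eq, he, LinearEquiv.apply_symm_apply]

theorem Iso.trans {A B C : Obj T E} (h : Iso A B) (h' : Iso B C) : Iso A C := by
  obtain ⟨e, he⟩ := h
  obtain ⟨e', he'⟩ := h'
  refine ⟨e.trans e', fun t x => ?_⟩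
  rw [LinearEquiv.trans_apply, he, he', LinearEquiv.trans_apply]

/-- Irreducible. -/
def Simple (A : Obj T E) : Prop := (∃ x : A.V, x ≠ 0) ∧ ∀ U, Stb A.f U → U = ⊥ ∨ U = ⊤

theorem h_left {A A' : Obj T E} (hA : Iso A A') (B : Obj T E) : h A B = h A' B := by
  obtain ⟨e, he⟩ := hA
  let L : (A.V →ₗ[E] B.V) ≃ₗ[E] (A'.V →ₗ[E] B.V) := e.arrowCongr (LinearEquiv.refl E B.V)
  have h1 : (homs A.f B.f).map (L : (A.V →ₗ[E] B.V) →ₗ[E] (A'.V →ₗ[E] B.V)) = homs A'.f B.f := by
    ext Φ
    rw [Submodule.mem_map_equiv]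
    have h2 : ∀ x, (L.symm Φ) x = Φ (e x) := fun x => rfl
    constructor
    · intro h3 t x
      have h4 := h3 t (e.symm x)
      rw [h2, h2, he, LinearEquiv.apply_symm_apply] at h4
      exact h4
    · intro h3 t x
      rw [h2, h2, he, h3]
  have h2 := LinearEquiv.finrank_map_eq L (homs A.f B.f)
  rw [h1] at h2
  exact h2.symm

theorem h_right {A A' : Obj T E} (hA : Iso A A') (B : Obj T E) : h B A = h B A' := by
  obtain ⟨e, he⟩ := hA
  let L : (B.V →ₗ[E] A.V) ≃ₗ[E] (B.V →ₗ[E] A'.V) := (LinearEquiv.refl E B.V).arrowCongr e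
  have h1 : (homs B.f A.f).map (L : (B.V →ₗ[E] A.V) →ₗ[E] (B.V →ₗ[E] A'.V)) = homs B.f A'.f := by
    ext Φ
    rw [Submodule.mem_map_equiv]
    have h2 : ∀ x, (L.symm Φ) x = e.symm (Φ x) := fun x => rfl
    constructor
    · intro h3 t x
      have h4 := h3 t x
      rw [h2, h2, LinearEquiv.symm_apply_eq, he, LinearEquiv.apply_symm_apply] at h4
      exact h4
    · intro h3 t x
      rw [h2, h2, LinearEquiv.symm_apply_eq, he, h3, LinearEquiv.apply_symm_apply]
  have h2 := LinearEquiv.finrank_map_eq L (homs B.f A.f)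
  rw [h1] at h2
  exact h2.symm

/-- The direct sum. -/
def prod (A B : Obj T E) : Obj T E := ⟨A.V × B.V, fun t => (A.f t).prodMap (B.f t)⟩

/-- A stable subspace. -/
def sub (A : Obj T E) (U : Submodule E A.V) (hU : Stb A.f U) : Obj T E :=
  ⟨U, fun t => (A.f t).restrict (hU t)⟩

theorem iso_prod (A : Obj T E) {U U' : Submodule E A.V} (hU : Stb A.f U) (hU' : Stb A.f U')
    (hc : IsCompl U U') : Iso ((A.sub U hU).prod (A.sub U' hU')) A := by
  have key : ∀ (x : U) (y : U'), Submodule.prodEquivOfIsCompl U U' hc (x, y) = (x : A.V) + y :=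
    fun x y => Submodule.coe_prodEquivOfIsCompl' U U' hc (x, y)
  have h1 : ∀ t (x : U) (y : U'), Submodule.prodEquivOfIsCompl U U' hc
      (⟨A.f t x, hU t x x.2⟩, ⟨A.f t y, hU' t y y.2⟩) =
      A.f t (Submodule.prodEquivOfIsCompl U U' hc (x, y)) := by
    intro t x y
    rw [key, key, map_add]
  exact ⟨Submodule.prodEquivOfIsCompl U U' hc, fun t x => h1 t x.1 x.2⟩

theorem h_prod_left (A A' B : Obj T E) : h (A.prod A') B = h A B + h A' B := by
  let L : homs (A.prod A').f B.f →ₗ[E] (homs A.f B.f × homs A'.f B.f) :=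
    { toFun := fun Φ => (⟨Φ.1.comp (LinearMap.inl E A.V A'.V), fun t x => by
          have h1 := Φ.2 t (x, 0)
          have h2 : (A.prod A').f t (x, 0) = (A.f t x, 0) := by
            change (A.f t x, A'.f t 0) = _
            rw [map_zero]
          rw [h2] at h1
          exact h1⟩, ⟨Φ.1.comp (LinearMap.inr E A.V A'.V), fun t x => by
          have h1 := Φ.2 t (0, x)
          have h2 : (A.prod A').f t (0, x) = (0, A'.f t x) := by
            change (A.f t 0, A'.f t x) = _
            rw [map_zero]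
          rw [h2] at h1
          exact h1⟩)
      map_add' := fun Φ Ψ => rfl
      map_smul' := fun c Φ => rfl }
  have hL : Function.Bijective L := by
    constructor
    · intro Φ Ψ h1
      have h2 : ∀ x : A.V, Φ.1 (x, (0 : A'.V)) = Ψ.1 (x, (0 : A'.V)) := fun x =>
        LinearMap.congr_fun (congrArg Subtype.val (congrArg Prod.fst h1)) x
      have h3 : ∀ x : A'.V, Φ.1 ((0 : A.V), x) = Ψ.1 ((0 : A.V), x) := fun x =>
        LinearMap.congr_fun (congrArg Subtype.val (congrArg Prod.snd h1)) x
      apply Subtype.ext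
      apply LinearMap.ext
      rintro ⟨x, y⟩
      have h4 : ((x, y) : A.V × A'.V) = (x, 0) + (0, y) := by simp
      change Φ.1 ((x, y) : A.V × A'.V) = Ψ.1 ((x, y) : A.V × A'.V)
      rw [h4]
      exact (map_add Φ.1 _ _).trans ((congrArg₂ (· + ·) (h2 x) (h3 y)).trans
        (map_add Ψ.1 _ _).symm)
    · rintro ⟨Φ, Ψ⟩
      refine ⟨⟨Φ.1.coprod Ψ.1, ?_⟩, ?_⟩
      · rintro t ⟨x, y⟩
        change Φ.1 (A.f t x) + Ψ.1 (A'.f t y) = B.f t (Φ.1 x + Ψ.1 y)
        rw [map_add, Φ.2, Ψ.2]
      · apply Prod.ext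
        · apply Subtype.ext
          apply LinearMap.ext
          intro x
          change Φ.1 x + Ψ.1 0 = Φ.1 x
          rw [map_zero, add_zero]
        · apply Subtype.ext
          apply LinearMap.ext
          intro x
          change Φ.1 0 + Ψ.1 x = Ψ.1 x
          rw [map_zero, zero_add]
  have h1 := (LinearEquiv.ofBijective L hL).finrank_eq
  rw [finrank_prod] at h1
  exact h1

theorem h_prod_right (A A' B : Obj T E) : h B (A.prod A') = h B A + h B A' := by
  let L : homs B.f (A.prod A').f →ₗ[E] (homs B.f A.f × homs B.f A'.f) :=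
    { toFun := fun Φ => (⟨(LinearMap.fst E A.V A'.V).comp Φ.1, fun t x =>
          congrArg Prod.fst (Φ.2 t x)⟩, ⟨(LinearMap.snd E A.V A'.V).comp Φ.1, fun t x =>
          congrArg Prod.snd (Φ.2 t x)⟩)
      map_add' := fun Φ Ψ => rfl
      map_smul' := fun c Φ => rfl }
  have hL : Function.Bijective L := by
    constructor
    · intro Φ Ψ h1
      apply Subtype.ext
      apply LinearMap.ext
      intro x
      apply Prod.ext
      · exact LinearMap.congr_fun (congrArg Subtype.val (congrArg Prod.fst h1)) x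
      · exact LinearMap.congr_fun (congrArg Subtype.val (congrArg Prod.snd h1)) x
    · rintro ⟨Φ, Ψ⟩
      refine ⟨⟨Φ.1.prod Ψ.1, ?_⟩, ?_⟩
      · intro t x
        change (Φ.1 (B.f t x), Ψ.1 (B.f t x)) = (A.f t (Φ.1 x), A'.f t (Ψ.1 x))
        rw [Φ.2, Ψ.2]
      · apply Prod.ext
        · apply Subtype.ext
          apply LinearMap.ext
          intro x
          rfl
        · apply Subtype.ext
          apply LinearMap.ext
          intro x
          rfl
  have h1 := (LinearEquiv.ofBijective L hL).finrank_eq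
  rw [finrank_prod] at h1
  exact h1

theorem SS_sub {A : Obj T E} (hA : SS A.f) {U : Submodule E A.V} (hU : Stb A.f U) :
    SS (A.sub U hU).f := SS_restrict hA hU

theorem schur {A B : Obj T E} (hA : A.Simple) (hB : B.Simple) : Iso A B ∨ h A B = 0 := by
  by_cases h0 : homs A.f B.f = ⊥
  · right
    unfold h
    rw [h0]
    exact finrank_bot E _
  · left
    obtain ⟨Φ, hΦ, h1⟩ := (Submodule.ne_bot_iff _).1 h0
    have hk : LinearMap.ker Φ = ⊥ := by
      rcases hA.2 (LinearMap.ker Φ) fun t x hx => by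
        rw [LinearMap.mem_ker] at hx ⊢
        rw [hΦ, hx, map_zero] with h2 | h2
      · exact h2
      · exact absurd (LinearMap.ker_eq_top.1 h2) h1
    have hr : LinearMap.range Φ = ⊤ := by
      rcases hB.2 (LinearMap.range Φ) fun t x hx => by
        obtain ⟨y, rfl⟩ := hx
        exact ⟨A.f t y, hΦ t y⟩ with h2 | h2
      · exact absurd (LinearMap.range_eq_bot.1 h2) h1
      · exact h2
    exact ⟨LinearEquiv.ofBijective Φ ⟨LinearMap.ker_eq_bot.1 hk, LinearMap.range_eq_top.1 hr⟩,
      fun t x => hΦ t x⟩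

theorem decomp : ∀ (n : ℕ) (A : Obj T E), finrank E A.V ≤ n → SS A.f →
    ∃ (ι : Type) (_ : Fintype ι) (M : ι → Obj T E), (∀ i, (M i).Simple) ∧
      (∀ B, h A B = ∑ i, h (M i) B) ∧ ∀ B, h B A = ∑ i, h B (M i) := by
  intro n
  induction n with
  | zero =>
    intro A hA hs
    have h0 : finrank E A.V = 0 := by omega
    have h1 : Subsingleton A.V := finrank_zero_iff.1 h0
    refine ⟨Empty, inferInstance, fun i => i.elim, fun i => i.elim, fun B => ?_, fun B => ?_⟩
    · have : Subsingleton (homs A.f B.f) := ⟨fun Φ Ψ => by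
        apply Subtype.ext
        apply LinearMap.ext
        intro x
        rw [Subsingleton.elim x 0, map_zero, map_zero]⟩
      rw [Finset.univ_eq_empty, Finset.sum_empty]
      exact finrank_zero_of_subsingleton
    · have : Subsingleton (homs B.f A.f) := ⟨fun Φ Ψ => by
        apply Subtype.ext
        apply LinearMap.ext
        intro x
        exact Subsingleton.elim _ _⟩
      rw [Finset.univ_eq_empty, Finset.sum_empty]
      exact finrank_zero_of_subsingleton
  | succ n ih =>
    intro A hA hs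
    by_cases h0 : finrank E A.V ≤ n
    · exact ih A h0 hs
    by_cases h1 : ∃ U : Submodule E A.V, Stb A.f U ∧ U ≠ ⊥ ∧ U ≠ ⊤
    · obtain ⟨U, hU, hb, ht⟩ := h1
      obtain ⟨U', hU', hc⟩ := hs U hU
      have hlt : finrank E U < finrank E A.V := Submodule.finrank_lt ht
      have hlt' : finrank E U' < finrank E A.V := by
        apply Submodule.finrank_lt
        rintro rfl
        exact hb (disjoint_top.1 hc.disjoint)
      obtain ⟨ι, _, M, h2, h3, h4⟩ := ih (A.sub U hU) (by change finrank E U ≤ n; omega)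
        (SS_sub hs hU)
      obtain ⟨ι', _, M', h2', h3', h4'⟩ := ih (A.sub U' hU') (by change finrank E U' ≤ n; omega)
        (SS_sub hs hU')
      refine ⟨ι ⊕ ι', inferInstance, Sum.elim M M', ?_, fun B => ?_, fun B => ?_⟩
      · rintro (i | i)
        · exact h2 i
        · exact h2' i
      · rw [Fintype.sum_sum_type, ← h_left (A.iso_prod hU hU' hc), h_prod_left, h3, h3']
        rfl
      · rw [Fintype.sum_sum_type, ← h_right (A.iso_prod hU hU' hc), h_prod_right, h4, h4']
        rfl
    · have h2 : A.Simple := by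
        constructor
        · by_contra hcon
          push Not at hcon
          have h3 : Subsingleton A.V := ⟨fun x y => by rw [hcon x, hcon y]⟩
          have h4 : finrank E A.V = 0 := finrank_zero_of_subsingleton
          omega
        · intro U hU
          by_contra hcon
          push Not at hcon
          exact h1 ⟨U, hU, hcon.1, hcon.2⟩
      refine ⟨Unit, inferInstance, fun _ => A, fun _ => h2, fun B => ?_, fun B => ?_⟩
      · rw [Finset.univ_unique, Finset.sum_singleton]
      · rw [Finset.univ_unique, Finset.sum_singleton]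

end Obj

open Obj

theorem sum_classes {ι κ Q : Type} [Fintype ι] [Fintype κ] [Fintype Q] [DecidableEq Q] (u : ι → Q)
    (v : κ → Q) (e : Q → ℕ) : (∑ i, ∑ j, if u i = v j then e (u i) else 0) =
      ∑ q, e q * ((∑ i, if u i = q then 1 else 0) * ∑ j, if v j = q then 1 else 0) := by
  have h1 : ∀ q, e q * ((∑ i, if u i = q then 1 else 0) * ∑ j, if v j = q then 1 else 0) =
      ∑ i, ∑ j, if u i = q then (if v j = q then e q else 0) else 0 := by
    intro q
    rw [Finset.sum_mul_sum, Finset.mul_sum]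
    refine Finset.sum_congr rfl fun i _ => ?_
    rw [Finset.mul_sum]
    refine Finset.sum_congr rfl fun j _ => ?_
    split_ifs <;> simp
  simp only [h1]
  symm
  rw [Finset.sum_comm]
  refine Finset.sum_congr rfl fun i _ => ?_
  rw [Finset.sum_comm]
  refine Finset.sum_congr rfl fun j _ => ?_
  rw [Finset.sum_ite_eq Finset.univ (u i)]
  simp only [Finset.mem_univ, if_true]
  by_cases h2 : u i = v j
  · rw [if_pos h2, if_pos h2.symm]
  · rw [if_neg h2, if_neg fun h3 => h2 h3.symm]

/-- The inequality of Cauchy and Schwarz for semisimple families of operators. -/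
theorem sq_le {V W : Type} [AddCommGroup V] [Module E V] [FiniteDimensional E V]
    [AddCommGroup W] [Module E W] [FiniteDimensional E W] {f : T → V →ₗ[E] V}
    {g : T → W →ₗ[E] W} (hf : SS f) (hg : SS g) :
    finrank E (homs f g) ^ 2 ≤ finrank E (homs f f) * finrank E (homs g g) := by
  classical
  let A : Obj T E := ⟨V, f⟩
  let B : Obj T E := ⟨W, g⟩
  change h A B ^ 2 ≤ h A A * h B B
  obtain ⟨ι, _, M, hM, hM1, hM2⟩ := decomp (finrank E V) A le_rfl hf
  obtain ⟨κ, _, N, hN, hN1, hN2⟩ := decomp (finrank E W) B le_rfl hg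
  let O : ι ⊕ κ → Obj T E := Sum.elim M N
  have hO : ∀ k, (O k).Simple := by
    rintro (i | j)
    · exact hM i
    · exact hN j
  let r : Setoid (ι ⊕ κ) := ⟨fun k l => Iso (O k) (O l), fun k => Iso.refl _,
    fun h1 => h1.symm, fun h1 h2 => h1.trans h2⟩
  let c : ι ⊕ κ → Quotient r := fun k => Quotient.mk r k
  let e : Quotient r → ℕ := fun q => h (O q.out) (O q.out)
  have hout : ∀ k, Iso (O k) (O (c k).out) := fun k => (Quotient.exact (Quotient.out_eq (c k))).symm
  have key : ∀ k l, h (O k) (O l) = if c k = c l then e (c k) else 0 := by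
    intro k l
    by_cases h1 : c k = c l
    · rw [if_pos h1, h_left (hout k), h_right (hout l), ← h1]
    · rw [if_neg h1]
      rcases schur (hO k) (hO l) with h2 | h2
      · exact absurd (Quotient.sound h2) h1
      · exact h2
  have hAB : h A B = ∑ i, ∑ j, if c (Sum.inl i) = c (Sum.inr j) then e (c (Sum.inl i)) else 0 := by
    rw [hM1]
    refine Finset.sum_congr rfl fun i _ => ?_
    rw [hN2]
    exact Finset.sum_congr rfl fun j _ => key (Sum.inl i) (Sum.inr j)
  have hAA : h A A = ∑ i, ∑ j, if c (Sum.inl i) = c (Sum.inl j) then e (c (Sum.inl i)) else 0 := by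
    rw [hM1]
    refine Finset.sum_congr rfl fun i _ => ?_
    rw [hM2]
    exact Finset.sum_congr rfl fun j _ => key (Sum.inl i) (Sum.inl j)
  have hBB : h B B = ∑ i, ∑ j, if c (Sum.inr i) = c (Sum.inr j) then e (c (Sum.inr i)) else 0 := by
    rw [hN1]
    refine Finset.sum_congr rfl fun i _ => ?_
    rw [hN2]
    exact Finset.sum_congr rfl fun j _ => key (Sum.inr i) (Sum.inr j)
  rw [hAB, hAA, hBB, sum_classes (fun i => c (Sum.inl i)) (fun j => c (Sum.inr j)) e,
    sum_classes (fun i => c (Sum.inl i)) (fun j => c (Sum.inl j)) e,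
    sum_classes (fun i => c (Sum.inr i)) (fun j => c (Sum.inr j)) e]
  apply Finset.sum_sq_le_sum_mul_sum_of_sq_le_mul
  · intro q _
    exact Nat.zero_le _
  · intro q _
    exact Nat.zero_le _
  · intro q _
    exact le_of_eq (by ring)

end

end Pool.Agent.K4H54.PT
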