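import Mathlib
import Pool.Agent.K4H35.TN.Defs

/-!
# Families of classes which are closed under the operations of correspondences
-/

set_option autoImplicit false

namespace Pool.Agent.K4H54.PT

open Matrix Pool.Agent.K4H35.TN

noncomputable section

variable {T E : Type} [Field E]

/-- The exterior product `F × G : H(X ^ (a + a')) → H(X ^ (c + c'))` of the maps
`F : H(X ^ a) → H(X ^ c)` and `G : H(X ^ a') → H(X ^ c')`. -/
def exterior {X : Cohomology T E} {a c a' c' : ℕ} (F : Matrix (X.pow c).ι (X.pow a).ι E)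
    (G : Matrix (X.pow c').ι (X.pow a').ι E) :
    Matrix (X.pow (c + c')).ι (X.pow (a + a')).ι E :=
  Matrix.of fun (x : Fin (c + c') → X.ι) (y : Fin (a + a') → X.ι) =>
    F (fun i => x (Fin.castAdd c' i)) (fun i => y (Fin.castAdd a' i)) *
      G (fun i => x (Fin.natAdd c i)) (fun i => y (Fin.natAdd a i))

/-- The property `P a c F` of maps `F : H(X ^ a) → H(X ^ c)` is preserved by linear combinations,
compositions and exterior products (for instance: `F` is induced by a combination of classes of
algebraic cycles on `X ^ a × X ^ c`). -/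
structure IsClosed (X : Cohomology T E)
    (P : ∀ a c : ℕ, Matrix (X.pow c).ι (X.pow a).ι E → Prop) : Prop where
  add : ∀ (a c : ℕ) (F G : Matrix (X.pow c).ι (X.pow a).ι E), P a c F → P a c G → P a c (F + G)
  smul : ∀ (a c : ℕ) (r : E) (F : Matrix (X.pow c).ι (X.pow a).ι E), P a c F → P a c (r • F)
  comp : ∀ (a b c : ℕ) (F : Matrix (X.pow b).ι (X.pow a).ι E)
    (G : Matrix (X.pow c).ι (X.pow b).ι E), P a b F → P b c G → P a c (G * F)
  prod : ∀ (a c a' c' : ℕ) (F : Matrix (X.pow c).ι (X.pow a).ι E)
    (G : Matrix (X.pow c').ι (X.pow a').ι E), P a c F → P a' c' G →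
    P (a + a') (c + c') (exterior F G)

/-- The property holds for the classes which are algebraic on every variety `X`: the point, the
diagonal of `X` (the identity of `H(X)`), the unit class, the class `pt` of a point, and the Poincaré
form `q(x, y) = ∫ x ∪ y` as a map `H(X × X) → E` (the correspondence defined by the diagonal). -/
structure Planar (X : Cohomology T E)
    (P : ∀ a c : ℕ, Matrix (X.pow c).ι (X.pow a).ι E → Prop) (q : Matrix X.ι X.ι E)
    (pt : X.ι → E) : Prop where
  point : P 0 0 (1 : Matrix (Fin 0 → X.ι) (Fin 0 → X.ι) E)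
  diagonal : P 1 1 (1 : Matrix (Fin 1 → X.ι) (Fin 1 → X.ι) E)
  unit : P 0 1 (Matrix.of fun (x : Fin 1 → X.ι) (_ : Fin 0 → X.ι) => X.one (x 0))
  ptClass : P 0 1 (Matrix.of fun (x : Fin 1 → X.ι) (_ : Fin 0 → X.ι) => pt (x 0))
  form : P 2 0 (Matrix.of fun (_ : Fin 0 → X.ι) (y : Fin 2 → X.ι) => q (y 0) (y 1))

/-- The form `q` is a Poincaré form with class of a point `pt`: it is nondegenerate and invariant, the
unit class and `pt` are Tate classes, and `q(1, pt)` is not zero. -/
structure IsPoincare (X : Cohomology T E) (q : Matrix X.ι X.ι E) (pt : X.ι → E) : Prop where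
  det_ne : q.det ≠ 0
  inv : ∀ θ, (X.act θ)ᵀ * q * X.act θ = q
  one_tate : IsTate X X.one
  pt_tate : IsTate X pt
  pairing : X.one ⬝ᵥ q *ᵥ pt ≠ 0

/-- The dimension of the space of all Tate classes on `X ^ m` (of all codimensions). -/
def tateDim (X : Cohomology T E) (m : ℕ) : ℕ :=
  Module.finrank E (Submodule.span E {F : Matrix (X.pow m).ι (X.pow 0).ι E |
    IsCorrespondence (X.pow 0) (X.pow m) F})

/-- The dimension of the space of the Tate classes on `X ^ m` with the property `P`. -/
def classDim (X : Cohomology T E) (P : ∀ a c : ℕ, Matrix (X.pow c).ι (X.pow a).ι E → Prop)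
    (m : ℕ) : ℕ :=
  Module.finrank E (Submodule.span E {F : Matrix (X.pow m).ι (X.pow 0).ι E |
    IsCorrespondence (X.pow 0) (X.pow m) F ∧ P 0 m F})

end

end Pool.Agent.K4H54.PT
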