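import Mathlib
import Pool.Agent.K4H54.PL.Planar

/-!
# Bending correspondences
-/

set_option autoImplicit false
set_option linter.unusedSectionVars false

namespace Pool.Agent.K4H54.PL

open Matrix Module

noncomputable section

variable {k : Type} [Field k] {ι : Type} [Fintype ι] [DecidableEq ι]

theorem ex_mul {a b c a' b' c' : ℕ} (A : Matrix (Fin c → ι) (Fin b → ι) k)
    (B : Matrix (Fin c' → ι) (Fin b' → ι) k) (C : Matrix (Fin b → ι) (Fin a → ι) k)
    (D : Matrix (Fin b' → ι) (Fin a' → ι) k) : ex A B * ex C D = ex (A * C) (B * D) := by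
  ext x y
  rw [Matrix.mul_apply, ← (Fin.appendEquiv b b').sum_comp, Fintype.sum_prod_type]
  change _ = (A * C) (fun i => x (Fin.castAdd c' i)) (fun i => y (Fin.castAdd a' i)) *
    (B * D) (fun i => x (Fin.natAdd c i)) (fun i => y (Fin.natAdd a i))
  rw [Matrix.mul_apply, Matrix.mul_apply, Finset.sum_mul_sum]
  refine Finset.sum_congr rfl fun u _ => Finset.sum_congr rfl fun w _ => ?_
  change A (fun i => x (Fin.castAdd c' i)) (fun i => Fin.append u w (Fin.castAdd b' i)) *
    B (fun i => x (Fin.natAdd c i)) (fun i => Fin.append u w (Fin.natAdd b i)) *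
    (C (fun i => Fin.append u w (Fin.castAdd b' i)) (fun i => y (Fin.castAdd a' i)) *
      D (fun i => Fin.append u w (Fin.natAdd b i)) (fun i => y (Fin.natAdd a i))) = _
  have e1 : (fun i => Fin.append u w (Fin.castAdd b' i)) = u := by
    funext i
    exact Fin.append_left u w i
  have e2 : (fun i => Fin.append u w (Fin.natAdd b i)) = w := by
    funext i
    exact Fin.append_right u w i
  rw [e1, e2]
  ring

/-- the transposed family -/
def Tr (R : ∀ a c : ℕ, Matrix (Fin c → ι) (Fin a → ι) k → Prop) :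
    ∀ a c : ℕ, Matrix (Fin c → ι) (Fin a → ι) k → Prop := fun a c F => R c a Fᵀ

variable {R : ∀ a c : ℕ, Matrix (Fin c → ι) (Fin a → ι) k → Prop}

theorem Cl.tr (hR : Cl R) : Cl (Tr R) where
  add := fun {a c F G} hF hG => by
    have h1 := hR.add hF hG
    rwa [← transpose_add] at h1
  smul := fun {a c} r F hF => by
    have h1 := hR.smul r hF
    rwa [← transpose_smul] at h1
  comp := fun {a b c F G} hF hG => by
    have h1 := hR.comp hG hF
    rwa [← transpose_mul] at h1
  prod := fun {a c a' c' F G} hF hG => hR.prod hF hG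

theorem finrank_tr (hR : Cl R) (h0 : ∀ a c, R a c 0) (h0' : ∀ a c, Tr R a c 0) (a c : ℕ) :
    finrank k (VV (Tr R) hR.tr h0' a c) = finrank k (VV R hR h0 c a) := by
  have hinj : Function.Injective (Matrix.transposeLinearEquiv (Fin c → ι) (Fin a → ι) k k) :=
    (Matrix.transposeLinearEquiv (Fin c → ι) (Fin a → ι) k k).injective
  rw [LinearEquiv.finrank_eq (Submodule.equivMapOfInjective
    (Matrix.transposeLinearEquiv (Fin c → ι) (Fin a → ι) k k).toLinearMap hinj
    (VV (Tr R) hR.tr h0' a c))]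
  have h1 : (VV (Tr R) hR.tr h0' a c).map
      (Matrix.transposeLinearEquiv (Fin c → ι) (Fin a → ι) k k).toLinearMap = VV R hR h0 c a := by
    refine le_antisymm ?_ ?_
    · rintro _ ⟨F, hF, rfl⟩
      exact hF
    · intro F hF
      refine ⟨Fᵀ, ?_, transpose_transpose F⟩
      change R c a Fᵀᵀ
      rwa [transpose_transpose]
  rw [h1]

theorem finrank_unbend (hR : Cl R) (h0 : ∀ a c, R a c 0) (h1 : ∀ n, R n n 1)
    {q qi : Matrix ι ι k} (hqi : q * qi = 1) (hq : R 0 2 (fq qi)ᵀ) (a c : ℕ) :
    finrank k (VV R hR h0 (a + 1) c) ≤ finrank k (VV R hR h0 a (c + 1)) := by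
  have h0' : ∀ a c, Tr R a c 0 := fun a c => by
    change R c a 0ᵀ
    rw [transpose_zero]
    exact h0 c a
  have h1' : ∀ n, Tr R n n 1 := fun n => by
    change R n n 1ᵀ
    rw [transpose_one]
    exact h1 n
  rw [← finrank_tr hR h0 h0', ← finrank_tr hR h0 h0']
  exact finrank_bend hR.tr h0' h1' (mul_eq_one_comm.1 hqi) hq c a

/-- **The dimension of a space of correspondences depends only on the total degree.** -/
theorem finrank_total (hR : Cl R) (h0 : ∀ a c, R a c 0) (h1 : ∀ n, R n n 1)
    {q qi : Matrix ι ι k} (hqi : q * qi = 1) (hf : R 2 0 (fq q)) (hq : R 0 2 (fq qi)ᵀ) (a : ℕ) :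
    ∀ c, finrank k (VV R hR h0 a c) = finrank k (VV R hR h0 0 (a + c)) := by
  induction a with
  | zero => intro c; rw [Nat.zero_add]
  | succ a ih =>
    intro c
    have h2 : finrank k (VV R hR h0 (a + 1) c) = finrank k (VV R hR h0 a (c + 1)) :=
      le_antisymm (finrank_unbend hR h0 h1 hqi hq a c) (finrank_bend hR h0 h1 hqi hf a c)
    rw [h2, ih]
    have h3 : a + (c + 1) = a + 1 + c := by omega
    rw [h3]

end

end Pool.Agent.K4H54.PL
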