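import Mathlib
import Pool.Agent.K4H35.TN.SS

/-!
# Invariant forms and invariant vectors of semisimple families of operators
-/

namespace Pool.Agent.K4H54.PT

open Pool.Agent.K4H35.TN

variable {T E : Type} [Field E] {V : Type} [AddCommGroup V] [Module E V] {f : T → V →ₗ[E] V}

/-- A nonzero invariant form of a semisimple family does not vanish on the invariants. -/
theorem nd_form (hf : SS f) (phi : V →ₗ[E] E) (hphi : ∀ t x, phi (f t x) = phi x) (h0 : phi ≠ 0) :
    ∃ x, (∀ t, f t x = x) ∧ phi x ≠ 0 := by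
  obtain ⟨y, hy⟩ : ∃ y, phi y ≠ 0 := by
    by_contra hcon
    push Not at hcon
    exact h0 (LinearMap.ext hcon)
  obtain ⟨v, hv, h1⟩ := exists_inv (g := fun _ : T => (LinearMap.id : E →ₗ[E] E)) hf (Φ := phi)
    (x := y) (fun t x => hphi t x) (fun _ => rfl)
  exact ⟨v, hv, by rwa [h1]⟩

/-- A nonzero invariant vector of a semisimple family is detected by an invariant form. -/
theorem nd_vec (hf : SS f) (x : V) (hx : ∀ t, f t x = x) (h0 : x ≠ 0) :
    ∃ phi : V →ₗ[E] E, (∀ t y, phi (f t y) = phi y) ∧ phi x ≠ 0 := by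
  obtain ⟨phi, h1, h2⟩ := exists_functional hf h0 hx
  exact ⟨phi, h1, by rw [h2]; exact one_ne_zero⟩

end Pool.Agent.K4H54.PT
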