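import Mathlib

/-!
# A growth lemma for logarithmically convex sequences
-/

set_option autoImplicit false

namespace Pool.Agent.K4H54.PT

theorem growth_step {u : ℕ → ℕ} {D : ℕ} (h1 : ∀ j, 1 ≤ u j) (hD1 : 1 ≤ D)
    (hD : ∀ j, u j ≤ D ^ (2 * j)) (hlog : ∀ j, u (j + 1) ^ 2 ≤ u j * u (j + 2)) (j : ℕ) :
    u (j + 1) ≤ D ^ 2 * u j := by
  by_contra hcon
  rw [not_le] at hcon
  have hpos : ∀ i, (0 : ℝ) < u i := fun i => by exact_mod_cast h1 i
  have hDpos : (0 : ℝ) < D := by exact_mod_cast hD1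
  set r : ℝ := (u (j + 1) : ℝ) / u j with hr
  have hrD : (D : ℝ) ^ 2 < r := by
    rw [hr, lt_div_iff₀ (hpos j)]
    exact_mod_cast hcon
  have hr0 : 0 < r := (pow_pos hDpos 2).trans hrD
  have hstep : ∀ i, r * u (j + i) ≤ u (j + i + 1) := by
    intro i
    induction i with
    | zero =>
      rw [hr, add_zero, div_mul_cancel₀ _ (hpos j).ne']
    | succ i ih =>
      have h2 : ((u (j + i + 1) : ℝ)) ^ 2 ≤ u (j + i) * u (j + i + 2) := by
        exact_mod_cast hlog (j + i)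
      have h3 : (0 : ℝ) < u (j + i) := hpos _
      have h4 : (0 : ℝ) < u (j + i + 1) := hpos _
      have e : j + (i + 1) = j + i + 1 := by ring
      rw [e]
      have h5 : u (j + i) * (r * u (j + i + 1)) ≤ u (j + i) * (u (j + i + 2) : ℝ) := by
        calc u (j + i) * (r * u (j + i + 1)) = (r * u (j + i)) * u (j + i + 1) := by ring
          _ ≤ (u (j + i + 1) : ℝ) * u (j + i + 1) := by gcongr
          _ = (u (j + i + 1) : ℝ) ^ 2 := by ring
          _ ≤ _ := h2
      exact le_of_mul_le_mul_left h5 h3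
  have hgrow : ∀ i, r ^ i ≤ u (j + i) := by
    intro i
    induction i with
    | zero => simpa using h1 j
    | succ i ih =>
      have := hstep i
      calc r ^ (i + 1) = r * r ^ i := by ring
        _ ≤ r * u (j + i) := by gcongr
        _ ≤ _ := this
  have hq : 1 < r / (D : ℝ) ^ 2 := by
    rwa [lt_div_iff₀ (pow_pos hDpos 2), one_mul]
  obtain ⟨i, hi⟩ := pow_unbounded_of_one_lt ((D : ℝ) ^ (2 * j)) hq
  have h6 := hgrow i
  have h7 : (u (j + i) : ℝ) ≤ (D : ℝ) ^ (2 * (j + i)) := by exact_mod_cast hD (j + i)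
  rw [div_pow, lt_div_iff₀ (by positivity)] at hi
  have h8 : (D : ℝ) ^ (2 * j) * ((D : ℝ) ^ 2) ^ i = (D : ℝ) ^ (2 * (j + i)) := by
    rw [← pow_mul, ← pow_add]
    congr 1
    ring
  rw [h8] at hi
  linarith

theorem growth_num {t : ℕ → ℕ} {D : ℕ} (hmono : ∀ m, t m ≤ t (m + 1)) (h1 : 1 ≤ t 0)
    (hD : ∀ m, t m ≤ D ^ m) (hlog : ∀ m, t (2 * m + 2) ^ 2 ≤ t (2 * m) * t (2 * m + 4))
    (n m : ℕ) : t (n + m) ≤ D ^ (n + 2) * t m := by
  have hm : Monotone t := monotone_nat_of_le_succ hmono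
  have h1' : ∀ j, 1 ≤ t j := fun j => h1.trans (hm (Nat.zero_le j))
  have hD1 : 1 ≤ D := by
    have := (h1' 1).trans (hD 1)
    rwa [pow_one] at this
  have hstep := growth_step (u := fun j => t (2 * j)) (fun j => h1' _) hD1 (fun j => hD _)
    (fun j => by
      have := hlog j
      show t (2 * (j + 1)) ^ 2 ≤ t (2 * j) * t (2 * (j + 2))
      rw [show 2 * (j + 1) = 2 * j + 2 by ring, show 2 * (j + 2) = 2 * j + 4 by ring]
      exact this)
  have hit : ∀ a c, t (2 * (a + c)) ≤ D ^ (2 * c) * t (2 * a) := by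
    intro a c
    induction c with
    | zero => simp
    | succ c ih =>
      have h2 : t (2 * (a + c + 1)) ≤ D ^ 2 * t (2 * (a + c)) := hstep (a + c)
      calc t (2 * (a + (c + 1))) = t (2 * (a + c + 1)) := by ring_nf
        _ ≤ D ^ 2 * t (2 * (a + c)) := h2
        _ ≤ D ^ 2 * (D ^ (2 * c) * t (2 * a)) := Nat.mul_le_mul_left _ ih
        _ = D ^ (2 * (c + 1)) * t (2 * a) := by ring
  calc t (n + m) ≤ t (2 * (m / 2 + (n + 2) / 2)) := hm (by omega)
    _ ≤ D ^ (2 * ((n + 2) / 2)) * t (2 * (m / 2)) := hit _ _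
    _ ≤ D ^ (n + 2) * t m := by
        gcongr
        · omega
        · exact hm (by omega)

end Pool.Agent.K4H54.PT
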