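import Mathlib
import Pool.Agent.K4H35.TN.Defs
import Pool.Agent.K4H54.PT.Defs
import Pool.Agent.K4H54.PT.Dual
import Pool.Agent.K4H54.PT.CS
import Pool.Agent.K4H54.PT.Nd
import Pool.Agent.K4H54.PT.Num

/-!
# The proportion of the algebraic classes among the Tate classes
-/

set_option autoImplicit false
set_option linter.unusedSectionVars false

namespace Pool.Agent.K4H54.PT

open Matrix Module Pool.Agent.K4H35.TN Pool.Agent.K4H54.PL

noncomputable section

variable {T E : Type} [Field E] {X : Cohomology T E}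

/-- the correspondences which commute with the operators -/
def TC (X : Cohomology T E) (a c : ℕ) (F : Matrix (Fin c → X.ι) (Fin a → X.ι) E) : Prop :=
  IsCorrespondence (X.pow a) (X.pow c) F

/-- the operators on the powers -/
def pa (X : Cohomology T E) (n : ℕ) (θ : T) : Matrix (Fin n → X.ι) (Fin n → X.ι) E :=
  (X.pow n).act θ

theorem pa_apply (n : ℕ) (θ : T) (u w : Fin n → X.ι) : pa X n θ u w = ∏ j, X.act θ (u j) (w j) :=
  rfl

theorem pa_zero (θ : T) : pa X 0 θ = 1 := by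
  ext u w
  rw [pa_apply, Subsingleton.elim u w, one_apply_eq]
  exact Finset.prod_empty

theorem pa_add (a b : ℕ) (θ : T) : pa X (a + b) θ = ex (pa X a θ) (pa X b θ) := by
  ext u w
  rw [pa_apply, Fin.prod_univ_add]
  rfl

theorem TC_iff {a c : ℕ} (F : Matrix (Fin c → X.ι) (Fin a → X.ι) E) :
    TC X a c F ↔ ∀ θ, pa X c θ * F = F * pa X a θ := Iff.rfl

theorem cl_TC : Cl (TC X) where
  add := fun {a c F G} hF hG θ => by
    have h1 : pa X c θ * F = F * pa X a θ := hF θ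
    have h2 : pa X c θ * G = G * pa X a θ := hG θ
    change pa X c θ * (F + G) = (F + G) * pa X a θ
    rw [Matrix.mul_add, Matrix.add_mul, h1, h2]
  smul := fun {a c} r F hF θ => by
    have h1 : pa X c θ * F = F * pa X a θ := hF θ
    change pa X c θ * (r • F) = (r • F) * pa X a θ
    rw [Matrix.mul_smul, Matrix.smul_mul, h1]
  comp := fun {a b c F G} hF hG θ => by
    have h1 : pa X b θ * F = F * pa X a θ := hF θ
    have h2 : pa X c θ * G = G * pa X b θ := hG θ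
    change pa X c θ * (G * F) = (G * F) * pa X a θ
    rw [← Matrix.mul_assoc, h2, Matrix.mul_assoc, h1, Matrix.mul_assoc]
  prod := fun {a c a' c' F G} hF hG θ => by
    have h1 : pa X c θ * F = F * pa X a θ := hF θ
    have h2 : pa X c' θ * G = G * pa X a' θ := hG θ
    change pa X (c + c') θ * ex F G = ex F G * pa X (a + a') θ
    rw [pa_add, pa_add, ex_mul, ex_mul, h1, h2]

theorem TC_zero (a c : ℕ) : TC X a c 0 := fun θ => by
  change pa X c θ * (0 : Matrix (Fin c → X.ι) (Fin a → X.ι) E) =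
    (0 : Matrix (Fin c → X.ι) (Fin a → X.ι) E) * pa X a θ
  rw [Matrix.mul_zero, Matrix.zero_mul]

theorem TC_one (n : ℕ) : TC X n n 1 := fun θ => by
  change pa X n θ * (1 : Matrix (Fin n → X.ι) (Fin n → X.ι) E) =
    (1 : Matrix (Fin n → X.ι) (Fin n → X.ι) E) * pa X n θ
  rw [Matrix.mul_one, Matrix.one_mul]

theorem sum_two (F : X.ι → X.ι → E) : ∑ y : Fin 2 → X.ι, F (y 0) (y 1) = ∑ i, ∑ j, F i j := by
  rw [← Fintype.sum_prod_type' (f := F)]
  exact Fintype.sum_equiv (finTwoArrowEquiv X.ι) _ _ fun _ => rfl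

theorem TC_form {q : Matrix X.ι X.ι E} (hq : ∀ θ, (X.act θ)ᵀ * q * X.act θ = q) :
    TC X 2 0 (fq q) := fun θ => by
  change pa X 0 θ * fq q = fq q * pa X 2 θ
  rw [pa_zero, Matrix.one_mul]
  ext u y
  rw [Matrix.mul_apply]
  have h1 : ∀ w : Fin 2 → X.ι, fq q u w * pa X 2 θ w y =
      q (w 0) (w 1) * (X.act θ (w 0) (y 0) * X.act θ (w 1) (y 1)) := by
    intro w
    rw [pa_apply, Fin.prod_univ_two]
    rfl
  refine Eq.trans ?_ (Finset.sum_congr rfl fun w _ => (h1 w).symm)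
  rw [sum_two (fun i j => q i j * (X.act θ i (y 0) * X.act θ j (y 1)))]
  change q (y 0) (y 1) = _
  conv_lhs => rw [← hq θ]
  rw [Matrix.mul_apply, Finset.sum_comm]
  refine Finset.sum_congr rfl fun j _ => ?_
  rw [Matrix.mul_apply, Finset.sum_mul]
  refine Finset.sum_congr rfl fun i _ => ?_
  rw [transpose_apply]
  ring

theorem inv_act {q : Matrix X.ι X.ι E} (hdet : q.det ≠ 0)
    (hq : ∀ θ, (X.act θ)ᵀ * q * X.act θ = q) (θ : T) :
    X.act θ * q⁻¹ * (X.act θ)ᵀ = q⁻¹ := by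
  have hu : IsUnit q.det := isUnit_iff_ne_zero.2 hdet
  have h1 : q * q⁻¹ = 1 := Matrix.mul_nonsing_inv _ hu
  have h3 : (X.act θ * q⁻¹ * (X.act θ)ᵀ) * q * X.act θ = X.act θ := by
    have e1 : (X.act θ * q⁻¹ * (X.act θ)ᵀ) * q * X.act θ =
        X.act θ * q⁻¹ * ((X.act θ)ᵀ * q * X.act θ) := by
      simp only [Matrix.mul_assoc]
    rw [e1, hq, Matrix.mul_assoc, mul_eq_one_comm.1 h1, Matrix.mul_one]
  have h4 : (q⁻¹ * (X.act θ)ᵀ * q) * X.act θ = 1 := by
    have e1 : (q⁻¹ * (X.act θ)ᵀ * q) * X.act θ = q⁻¹ * ((X.act θ)ᵀ * q * X.act θ) := by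
      simp only [Matrix.mul_assoc]
    rw [e1, hq, mul_eq_one_comm.1 h1]
  have h5 : X.act θ * (q⁻¹ * (X.act θ)ᵀ * q) = 1 := mul_eq_one_comm.1 h4
  have h6 : (X.act θ * q⁻¹ * (X.act θ)ᵀ) * q = 1 := by
    rw [← h5]
    simp only [Matrix.mul_assoc]
  have h7 := congrArg (fun Z => Z * q⁻¹) h6
  rw [Matrix.mul_assoc, h1, Matrix.mul_one, Matrix.one_mul] at h7
  exact h7

theorem TC_coform {q : Matrix X.ι X.ι E} (hdet : q.det ≠ 0)
    (hq : ∀ θ, (X.act θ)ᵀ * q * X.act θ = q) : TC X 0 2 (fq q⁻¹)ᵀ := fun θ => by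
  change pa X 2 θ * (fq q⁻¹)ᵀ = (fq q⁻¹)ᵀ * pa X 0 θ
  rw [pa_zero, Matrix.mul_one]
  ext x u
  rw [Matrix.mul_apply]
  have h1 : ∀ w : Fin 2 → X.ι, pa X 2 θ x w * (fq q⁻¹)ᵀ w u =
      X.act θ (x 0) (w 0) * X.act θ (x 1) (w 1) * q⁻¹ (w 0) (w 1) := by
    intro w
    rw [pa_apply, Fin.prod_univ_two]
    rfl
  refine (Finset.sum_congr rfl fun w _ => h1 w).trans ?_
  rw [sum_two (fun i j => X.act θ (x 0) i * X.act θ (x 1) j * q⁻¹ i j)]
  change _ = q⁻¹ (x 0) (x 1)
  conv_rhs => rw [← inv_act hdet hq θ]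
  rw [Matrix.mul_apply, Finset.sum_comm]
  refine Finset.sum_congr rfl fun j _ => ?_
  rw [Matrix.mul_apply, Finset.sum_mul]
  refine Finset.sum_congr rfl fun i _ => ?_
  rw [transpose_apply]
  ring

theorem TC_vec {v : X.ι → E} (hv : IsTate X v) : TC X 0 1 (cl (v1 v)) := fun θ => by
  change pa X 1 θ * cl (v1 v) = cl (v1 v) * pa X 0 θ
  rw [pa_zero, Matrix.mul_one]
  ext x u
  rw [Matrix.mul_apply]
  have h1 : ∀ w : Fin 1 → X.ι, pa X 1 θ x w * cl (v1 v) w u = X.act θ (x 0) (w 0) * v (w 0) := by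
    intro w
    rw [pa_apply, Fin.prod_univ_one]
    rfl
  refine (Finset.sum_congr rfl fun w _ => h1 w).trans ?_
  have h2 := (Equiv.funUnique (Fin 1) X.ι).sum_comp (fun i => X.act θ (x 0) i * v i)
  refine Eq.trans h2 ?_
  exact congrFun (hv θ) (x 0)

/-- the Tate classes -/
def HT (X : Cohomology T E) (m : ℕ) : Submodule E (PL.T E X.ι m) := BB (TC X) cl_TC TC_zero m

/-- the Tate forms -/
def HT' (X : Cohomology T E) (m : ℕ) : Submodule E (PL.T E X.ι m) := BB' (TC X) cl_TC TC_zero m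

/-- the operators as linear maps -/
def fa (X : Cohomology T E) (n : ℕ) (θ : T) :
    ((Fin n → X.ι) → E) →ₗ[E] ((Fin n → X.ι) → E) := (pa X n θ).mulVecLin

theorem SS_fa (h : ∀ n, IsSemisimple (X.pow n)) (n : ℕ) : SS (fa X n) := h n

theorem mem_HT {m : ℕ} (x : PL.T E X.ι m) : x ∈ HT X m ↔ ∀ θ, fa X m θ x = x := by
  constructor
  · intro h θ
    have h1 : pa X m θ * cl x = cl x * pa X 0 θ := h θ
    rw [pa_zero, Matrix.mul_one] at h1
    funext u
    exact congrFun (congrFun h1 u) Fin.elim0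
  · intro h θ
    change pa X m θ * cl x = cl x * pa X 0 θ
    rw [pa_zero, Matrix.mul_one]
    ext u w
    exact congrFun (h θ) u

theorem mem_HT' {m : ℕ} (φ : PL.T E X.ι m) :
    φ ∈ HT' X m ↔ ∀ θ y, φ ⬝ᵥ fa X m θ y = φ ⬝ᵥ y := by
  constructor
  · intro h θ y
    have h1 : pa X 0 θ * ro φ = ro φ * pa X m θ := h θ
    rw [pa_zero, Matrix.one_mul] at h1
    change φ ⬝ᵥ (pa X m θ *ᵥ y) = φ ⬝ᵥ y
    rw [dotProduct_mulVec]
    congr 1
    funext u
    exact (congrFun (congrFun h1 Fin.elim0) u).symm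
  · intro h θ
    change pa X 0 θ * ro φ = ro φ * pa X m θ
    rw [pa_zero, Matrix.one_mul]
    ext w u
    have h1 := h θ (Pi.single u 1)
    change φ ⬝ᵥ (pa X m θ *ᵥ Pi.single u 1) = φ ⬝ᵥ Pi.single u 1 at h1
    rw [dotProduct_mulVec, dotProduct_single, dotProduct_single, mul_one, mul_one] at h1
    exact h1.symm

theorem nondeg (h : ∀ n, IsSemisimple (X.pow n)) (m : ℕ) (φ : PL.T E X.ι m) (hφ : φ ∈ HT' X m)
    (h0 : ∀ x ∈ HT X m, φ ⬝ᵥ x = 0) : φ = 0 := by
  by_contra hne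
  let L : ((Fin m → X.ι) → E) →ₗ[E] E :=
    { toFun := fun y => φ ⬝ᵥ y
      map_add' := fun y z => dotProduct_add _ _ _
      map_smul' := fun r y => dotProduct_smul r _ _ }
  obtain ⟨x, hx, hx0⟩ := nd_form (SS_fa h m) L (fun θ y => (mem_HT' φ).1 hφ θ y) (by
    intro hL
    apply hne
    funext u
    have h1 := LinearMap.congr_fun hL (Pi.single u 1)
    change φ ⬝ᵥ Pi.single u 1 = 0 at h1
    rwa [dotProduct_single, mul_one] at h1)
  exact hx0 (h0 x ((mem_HT x).2 hx))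

theorem nondeg' (h : ∀ n, IsSemisimple (X.pow n)) (m : ℕ) (x : PL.T E X.ι m) (hx : x ∈ HT X m)
    (h0 : ∀ φ ∈ HT' X m, x ⬝ᵥ φ = 0) : x = 0 := by
  by_contra hne
  obtain ⟨L, hL, hL0⟩ := nd_vec (SS_fa h m) x ((mem_HT x).1 hx) hne
  have h1 : ∀ y : (Fin m → X.ι) → E, L y = (fun u => L (Pi.single u 1)) ⬝ᵥ y := by
    intro y
    have h2 : y = ∑ u, y u • (Pi.single u (1 : E) : (Fin m → X.ι) → E) := by
      funext w
      rw [Finset.sum_apply]
      simp [Pi.single_apply]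
    conv_lhs => rw [h2]
    rw [map_sum]
    unfold dotProduct
    refine Finset.sum_congr rfl fun u _ => ?_
    rw [map_smul, smul_eq_mul, mul_comm]
  have h2 : (fun u => L (Pi.single u 1)) ∈ HT' X m := by
    rw [mem_HT']
    intro θ y
    rw [← h1, ← h1]
    exact hL θ y
  apply hL0
  rw [h1, dotProduct_comm]
  exact h0 _ h2

/-- the equivariant maps between the powers as matrices -/
theorem finrank_homs (a c : ℕ) : finrank E (homs (fa X a) (fa X c)) =
    finrank E (VV (TC X) cl_TC TC_zero a c) := by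
  have hinj : Function.Injective
      (Matrix.toLin' : Matrix (Fin c → X.ι) (Fin a → X.ι) E ≃ₗ[E] _).toLinearMap :=
    (Matrix.toLin' : Matrix (Fin c → X.ι) (Fin a → X.ι) E ≃ₗ[E] _).injective
  rw [LinearEquiv.finrank_eq (Submodule.equivMapOfInjective _ hinj
    (VV (TC X) cl_TC TC_zero a c))]
  have h1 : (VV (TC X) cl_TC TC_zero a c).map
      (Matrix.toLin' : Matrix (Fin c → X.ι) (Fin a → X.ι) E ≃ₗ[E] _).toLinearMap =
      homs (fa X a) (fa X c) := by
    refine le_antisymm ?_ ?_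
    · rintro _ ⟨F, hF, rfl⟩ θ x
      have h2 : pa X c θ * F = F * pa X a θ := hF θ
      change Matrix.toLin' F (fa X a θ x) = fa X c θ (Matrix.toLin' F x)
      rw [Matrix.toLin'_apply, Matrix.toLin'_apply]
      change F *ᵥ (pa X a θ *ᵥ x) = pa X c θ *ᵥ (F *ᵥ x)
      rw [mulVec_mulVec, mulVec_mulVec, h2]
    · intro Φ hΦ
      refine ⟨LinearMap.toMatrix' Φ, ?_, Matrix.toLin'_toMatrix' Φ⟩
      intro θ
      change pa X c θ * LinearMap.toMatrix' Φ = LinearMap.toMatrix' Φ * pa X a θ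
      apply Matrix.toLin'.injective
      rw [Matrix.toLin'_mul, Matrix.toLin'_mul, Matrix.toLin'_toMatrix']
      apply LinearMap.ext
      intro x
      exact (hΦ θ x).symm
  rw [h1]

theorem finrank_HT (a c : ℕ) {q : Matrix X.ι X.ι E} (hdet : q.det ≠ 0)
    (hq : ∀ θ, (X.act θ)ᵀ * q * X.act θ = q) :
    finrank E (VV (TC X) cl_TC TC_zero a c) = finrank E (HT X (a + c)) := by
  have hu : IsUnit q.det := isUnit_iff_ne_zero.2 hdet
  unfold HT
  rw [finrank_BB_VV]
  exact finrank_total cl_TC TC_zero TC_one (Matrix.mul_nonsing_inv _ hu) (TC_form hq)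
    (TC_coform hdet hq) a c

theorem mono_HT {q : Matrix X.ι X.ι E} {pt : X.ι → E} (hp : IsPoincare X q pt) (m : ℕ) :
    finrank E (HT X m) ≤ finrank E (HT X (m + 1)) := by
  have hvl : v1 pt ⬝ᵥ v1 (X.one ᵥ* q) ≠ 0 := by
    rw [dot_v1, dotProduct_comm, ← dotProduct_mulVec]
    exact hp.pairing
  have h1 := grow (k := E) (H := HT X) (B := fun _ => ⊥) (fun _ => bot_le) hvl
    (fun m y hy => ten_cl cl_TC hy (TC_vec hp.pt_tate)) (fun m b hb => by
      have h2 : b = 0 := (Submodule.mem_bot E).1 hb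
      have h3 : ctr b (v1 (X.one ᵥ* q)) = 0 := by
        rw [h2]
        funext x
        exact Finset.sum_eq_zero fun y _ => zero_mul _
      rw [h3]
      exact Submodule.zero_mem _) m
  simpa using h1

/-- **The growth of the dimensions of the spaces of Tate classes.** -/
theorem growth_HT (h : ∀ n, IsSemisimple (X.pow n)) {q : Matrix X.ι X.ι E} {pt : X.ι → E}
    (hp : IsPoincare X q pt) (n m : ℕ) :
    finrank E (HT X (n + m)) ≤ Fintype.card X.ι ^ (n + 2) * finrank E (HT X m) := by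
  refine growth_num (t := fun m => finrank E (HT X m)) (mono_HT hp) ?_ ?_ ?_ n m
  · have h1 : (fun _ => 1 : PL.T E X.ι 0) ∈ HT X 0 := by
      rw [mem_HT]
      intro θ
      change pa X 0 θ *ᵥ (fun _ => 1) = fun _ => 1
      rw [pa_zero, one_mulVec]
    have h2 : (fun _ => 1 : PL.T E X.ι 0) ≠ 0 := by
      intro h3
      exact one_ne_zero (congrFun h3 Fin.elim0)
    rw [Nat.one_le_iff_ne_zero]
    intro h3
    have h4 : HT X 0 = ⊥ := Submodule.finrank_eq_zero.1 h3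
    rw [h4] at h1
    exact h2 ((Submodule.mem_bot E).1 h1)
  · intro m
    refine (Submodule.finrank_le _).trans ?_
    rw [Module.finrank_fintype_fun_eq_card, Fintype.card_fun, Fintype.card_fin]
  · intro m
    have h1 := sq_le (SS_fa h m) (SS_fa h (m + 2))
    rw [finrank_homs, finrank_homs, finrank_homs, finrank_HT _ _ hp.det_ne hp.inv,
      finrank_HT _ _ hp.det_ne hp.inv, finrank_HT _ _ hp.det_ne hp.inv] at h1
    have e1 : m + (m + 2) = 2 * m + 2 := by omega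
    have e2 : m + m = 2 * m := by omega
    have e3 : m + 2 + (m + 2) = 2 * m + 4 := by omega
    rw [e1, e2, e3] at h1
    exact h1

/-- the Tate classes in a family -/
def TP (P : ∀ a c : ℕ, Matrix (X.pow c).ι (X.pow a).ι E → Prop) (a c : ℕ)
    (F : Matrix (Fin c → X.ι) (Fin a → X.ι) E) : Prop :=
  TC X a c F ∧ P a c F

theorem cl_TP {P : ∀ a c : ℕ, Matrix (X.pow c).ι (X.pow a).ι E → Prop} (hP : IsClosed X P) :
    Cl (TP (X := X) P) where
  add := fun {a c F G} hF hG => ⟨cl_TC.add hF.1 hG.1, hP.add a c F G hF.2 hG.2⟩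
  smul := fun {a c} r F hF => ⟨cl_TC.smul r hF.1, hP.smul a c r F hF.2⟩
  comp := fun {a b c F G} hF hG => ⟨cl_TC.comp hF.1 hG.1, hP.comp a b c F G hF.2 hG.2⟩
  prod := fun {a c a' c' F G} hF hG =>
    ⟨cl_TC.prod hF.1 hG.1, hP.prod a c a' c' F G hF.2 hG.2⟩

/-- **The proportion of a closed family which does not contain all Tate classes.** -/
theorem main (X : Cohomology T E) (hX : ∀ n, IsSemisimple (X.pow n))
    (P : ∀ a c : ℕ, Matrix (X.pow c).ι (X.pow a).ι E → Prop) (hP : IsClosed X P)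
    (q : Matrix X.ι X.ι E) (pt : X.ι → E) (hq : IsPoincare X q pt) (hc : Planar X P q pt)
    (n : ℕ) (F : Matrix (X.pow n).ι (X.pow 0).ι E)
    (hF : IsCorrespondence (X.pow 0) (X.pow n) F) (hFP : ¬ P 0 n F) (m : ℕ) (hm : n ≤ m) :
    (classDim X P m : ℝ) ≤
      (1 - 1 / (2 * (Fintype.card X.ι : ℝ) ^ (n + 2))) * (tateDim X m : ℝ) := by
  have hu : IsUnit q.det := isUnit_iff_ne_zero.2 hq.det_ne
  have hPl : Pl (TP (X := X) P) q q⁻¹ X.one pt :=
    { clo := cl_TP hP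
      h0 := ⟨TC_one 0, hc.point⟩
      h1 := ⟨TC_one 1, hc.diagonal⟩
      form := ⟨TC_form hq.inv, hc.form⟩
      unit := ⟨TC_vec hq.one_tate, hc.unit⟩
      pt := ⟨TC_vec hq.pt_tate, hc.ptClass⟩
      inv := Matrix.mul_nonsing_inv _ hu
      ne := hq.pairing }
  obtain ⟨x, rfl⟩ := exists_cl F
  have hn : BB (TP (X := X) P) hPl.clo hPl.zero n ≠ HT X n := by
    intro h1
    have h2 : x ∈ HT X n := hF
    rw [← h1] at h2
    exact hFP h2.2
  have h1 := proportion (k := E) (H := HT X) (H' := HT' X)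
    (B := BB (TP (X := X) P) hPl.clo hPl.zero) (B' := BB' (TP (X := X) P) hPl.clo hPl.zero)
    (fun m y hy => hy.1) (nondeg hX) (nondeg' hX)
    (fun n m φ hφ ψ hψ => ten_ro cl_TC hφ hψ.1)
    (fun n m b hb ψ hψ => ctr_cl hPl.clo hPl.idn hb hψ)
    (finrank_dual hPl.clo hPl.zero hPl.idn hPl.inv hPl.form) hPl.hvl
    (fun m y hy => ten_cl cl_TC hy hPl.pt.1) hPl.form1 hn (growth_HT hX hq n) m hm
  have h2 : classDim X P m = finrank E (BB (TP (X := X) P) hPl.clo hPl.zero m) := by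
    rw [finrank_BB_VV, ← span_eq_VV]
    rfl
  have h3 : tateDim X m = finrank E (HT X m) := by
    unfold HT
    rw [finrank_BB_VV, ← span_eq_VV]
    rfl
  rw [← h2, ← h3] at h1
  have hD : (0 : ℝ) < (Fintype.card X.ι : ℝ) ^ (n + 2) := by
    have h4 : 0 < Fintype.card X.ι := by
      by_contra hcon
      have h5 : Fintype.card X.ι = 0 := by omega
      have h6 : IsEmpty X.ι := Fintype.card_eq_zero_iff.1 h5
      apply hq.pairing
      unfold dotProduct
      exact Finset.sum_eq_zero fun i _ => h6.elim i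
    positivity
  have h5 : (2 * (Fintype.card X.ι : ℝ) ^ (n + 2)) * classDim X P m + tateDim X m ≤
      (2 * (Fintype.card X.ι : ℝ) ^ (n + 2)) * tateDim X m := by
    exact_mod_cast h1
  have h6 : (1 - 1 / (2 * (Fintype.card X.ι : ℝ) ^ (n + 2))) * (tateDim X m : ℝ) =
      ((2 * (Fintype.card X.ι : ℝ) ^ (n + 2)) * tateDim X m - tateDim X m) /
        (2 * (Fintype.card X.ι : ℝ) ^ (n + 2)) := by
    field_simp
  rw [h6, le_div_iff₀ (by positivity)]
  linarith

end

end Pool.Agent.K4H54.PT
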