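import Mathlib
import Pool.Agent.K4H54.PL.HalfFam
import Pool.Agent.K4H54.PT.Main
import Pool.Agent.K4H54.PT.Sym

/-!
# The majority law for Tate classes
-/

set_option autoImplicit false
set_option linter.unusedSectionVars false

namespace Pool.Agent.K4H54.PT

open Matrix Module Pool.Agent.K4H35.TN Pool.Agent.K4H54.PL

noncomputable section

variable {T E : Type} [Field E] {X : Cohomology T E}
  {P : ∀ a c : ℕ, Matrix (X.pow c).ι (X.pow a).ι E → Prop} {q : Matrix X.ι X.ι E} {pt : X.ι → E}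
  {d : X.ι → ℕ}

/-- the closed family of `P` and of the Tate classes -/
theorem pair_tate (hP : IsClosed X P) (hq : IsPoincare X q pt) (hc : Planar X P q pt)
    (hd : Symmetric X P q d) :
    Pair (TP (X := X) P) (TC X) q q⁻¹ X.one pt d where
  pl :=
    { clo := cl_TP hP
      h0 := ⟨TC_one 0, hc.point⟩
      h1 := ⟨TC_one 1, hc.diagonal⟩
      form := ⟨TC_form hq.inv, hc.form⟩
      unit := ⟨TC_vec hq.one_tate, hc.unit⟩
      pt := ⟨TC_vec hq.pt_tate, hc.ptClass⟩
      inv := Matrix.mul_nonsing_inv _ (isUnit_iff_ne_zero.2 hq.det_ne)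
      ne := hq.pairing }
  clo := cl_TC
  zero := TC_zero
  le := fun {a c F} h => h.1
  inverse := ⟨TC_coform hq.det_ne hq.inv, hd.diagonalClass⟩
  symm := ⟨TC_ssw hd.degree, hd.symmetry⟩

theorem log_HT (h : ∀ n, IsSemisimple (X.pow n)) (hp : IsPoincare X q pt) (m : ℕ) :
    finrank E (HT X (2 * m + 2)) ^ 2 ≤ finrank E (HT X (2 * m)) * finrank E (HT X (2 * m + 4)) := by
  have h1 := sq_le (SS_fa h m) (SS_fa h (m + 2))
  rw [finrank_homs, finrank_homs, finrank_homs, finrank_HT _ _ hp.det_ne hp.inv,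
    finrank_HT _ _ hp.det_ne hp.inv, finrank_HT _ _ hp.det_ne hp.inv] at h1
  have e1 : m + (m + 2) = 2 * m + 2 := by omega
  have e2 : m + m = 2 * m := by omega
  have e3 : m + 2 + (m + 2) = 2 * m + 4 := by omega
  rw [e1, e2, e3] at h1
  exact h1

theorem classDim_eq (hP : IsClosed X P) (h0 : ∀ a c, TP (X := X) P a c 0) (m : ℕ) :
    classDim X P m = finrank E (BB (TP (X := X) P) (cl_TP hP) h0 m) := by
  rw [finrank_BB_VV, ← span_eq_VV]
  rfl

theorem tateDim_eq (m : ℕ) : tateDim X m = finrank E (HT X m) := by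
  unfold HT
  rw [finrank_BB_VV, ← span_eq_VV]
  rfl

/-- **The majority law for Tate classes.** -/
theorem half [CharZero E] (X : Cohomology T E) (hX : ∀ n, IsSemisimple (X.pow n))
    (P : ∀ a c : ℕ, Matrix (X.pow c).ι (X.pow a).ι E → Prop) (hP : IsClosed X P)
    (q : Matrix X.ι X.ι E) (pt : X.ι → E) (hq : IsPoincare X q pt) (hc : Planar X P q pt)
    (d : X.ι → ℕ) (hd : Symmetric X P q d) (n : ℕ) (F : Matrix (X.pow n).ι (X.pow 0).ι E)
    (hF : IsCorrespondence (X.pow 0) (X.pow n) F) (hFP : ¬ P 0 n F) (ε : ℝ) (hε : 0 < ε) :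
    ∀ᶠ m : ℕ in Filter.atTop, (classDim X P m : ℝ) ≤ (1 / 2 + ε) * (tateDim X m : ℝ) := by
  have h := pair_tate hP hq hc hd
  obtain ⟨x, rfl⟩ := exists_cl F
  have hx : TC X 0 n (cl x) := hF
  have h1 := half_fam h (nondeg hX) (nondeg' hX) (fun j => log_HT hX hq j) hx
    (fun h' => hFP h'.2) ε hε
  filter_upwards [h1] with m hm
  rw [classDim_eq hP h.pl.zero, tateDim_eq]
  exact hm

end

end Pool.Agent.K4H54.PT
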