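import Mathlib
import Pool.Agent.K4H35.TN.Main
import Pool.Agent.K4H54.PT.Half
import Pool.Agent.K4H54.PL.Full
import Pool.Agent.K4H54.PL.HalfU

/-!
# The Tate classes on all powers are generated by those on finitely many powers
-/

set_option autoImplicit false
set_option linter.unusedSectionVars false

namespace Pool.Agent.K4H54.PT

open Matrix Module Pool.Agent.K4H35.TN Pool.Agent.K4H54.PL

noncomputable section

variable {T E : Type} [Field E]

/-- the cohomologies of dimension one with trivial operators -/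
def Triv (T E : Type) [Field E] : Set (Cohomology T E) :=
  {Z | Fintype.card Z.ι = 1 ∧ (∀ θ, Z.act θ = 1) ∧ Z.one ≠ 0}

/-- the cohomology of the point -/
def ptC (T E : Type) [Field E] : Cohomology T E where
  ι := Unit
  act := fun _ => 1
  one := fun _ => 1

theorem ptC_mem : ptC T E ∈ Triv T E :=
  ⟨Fintype.card_unit, fun _ => rfl, fun h => one_ne_zero (congrFun h ())⟩

theorem triv_ss (Z : Cohomology T E) (hZ : Z ∈ Triv T E) : IsSemisimple Z ∧ IsDual Z := by
  obtain ⟨h1, h2, h3⟩ := hZ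
  refine ⟨?_, h3, ?_, 1, ?_, ?_⟩
  · intro U _
    obtain ⟨U', hU'⟩ := Submodule.exists_isCompl U
    exact ⟨U', fun θ x hx => by rwa [h2 θ, one_mulVec], hU'⟩
  · intro θ
    rw [h2 θ, one_mulVec]
  · rw [det_one]
    exact one_ne_zero
  · intro θ
    rw [h2 θ, transpose_one, Matrix.mul_one, Matrix.mul_one]

theorem triv_prod (Z : Cohomology T E) (hZ : Z ∈ Triv T E) (Z' : Cohomology T E)
    (hZ' : Z' ∈ Triv T E) : Z.prod Z' ∈ Triv T E := by
  obtain ⟨h1, h2, h3⟩ := hZ
  obtain ⟨h1', h2', h3'⟩ := hZ'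
  refine ⟨?_, ?_, ?_⟩
  · change Fintype.card (Z.ι × Z'.ι) = 1
    rw [Fintype.card_prod, h1, h1']
  · intro θ
    refine Matrix.ext fun (p r : Z.ι × Z'.ι) => ?_
    change Z.act θ p.1 r.1 * Z'.act θ p.2 r.2 = (1 : Matrix (Z.ι × Z'.ι) (Z.ι × Z'.ι) E) p r
    rw [h2, h2', Matrix.one_apply, Matrix.one_apply, Matrix.one_apply]
    by_cases h : p = r
    · subst h
      simp
    · rw [if_neg h]
      by_cases h4 : p.1 = r.1
      · rw [if_neg (fun h5 => h (Prod.ext h4 h5)), mul_zero]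
      · rw [if_neg h4, zero_mul]
  · obtain ⟨i, hi⟩ := Function.ne_iff.1 h3
    obtain ⟨i', hi'⟩ := Function.ne_iff.1 h3'
    intro h
    exact mul_ne_zero hi hi' (congrFun h (i, i'))

theorem triv_pow (Z : Cohomology T E) (hZ : Z ∈ Triv T E) (n : ℕ) : Z.pow n ∈ Triv T E := by
  obtain ⟨h1, h2, h3⟩ := hZ
  refine ⟨?_, ?_, ?_⟩
  · change Fintype.card (Fin n → Z.ι) = 1
    rw [Fintype.card_fun, h1, one_pow]
  · intro θ
    refine Matrix.ext fun (u w : Fin n → Z.ι) => ?_
    change ∏ j, Z.act θ (u j) (w j) = (1 : Matrix (Fin n → Z.ι) (Fin n → Z.ι) E) u w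
    have h4 : Subsingleton Z.ι := Fintype.card_le_one_iff_subsingleton.1 (le_of_eq h1)
    rw [Subsingleton.elim u w, one_apply_eq]
    refine Finset.prod_eq_one fun j _ => ?_
    rw [h2, one_apply_eq]
  · obtain ⟨i, hi⟩ := Function.ne_iff.1 h3
    intro h
    have h4 : ∏ _j : Fin n, Z.one i = 0 := congrFun h (fun _ => i)
    rw [Finset.prod_const] at h4
    exact hi (eq_zero_of_pow_eq_zero h4)

/-- the combinations of the products of Tate classes of degree at most `K` -/
def GG (X : Cohomology T E) (K N : ℕ) : Submodule E (PL.T E X.ι N) :=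
  Submodule.span E {y : PL.T E X.ι N | ∃ (t : ℕ) (κ : Fin t → ℕ) (e : (Σ s, Fin (κ s)) ≃ Fin N)
    (b : ∀ s, PL.T E X.ι (κ s)), (∀ s, κ s ≤ K ∧ b s ∈ HT X (κ s)) ∧
    y = fun w => ∏ s, b s fun a => w (e ⟨s, a⟩)}

/-- **Finite generation of the Tate classes on the powers.** -/
theorem gen (X : Cohomology T E) (hX : ∀ n, IsSemisimple (X.pow n)) (hd : IsDual X) :
    ∃ K : ℕ, ∀ (N : ℕ) (x : PL.T E X.ι N), x ∈ HT X N → x ∈ GG X K N := by
  obtain ⟨B, ⟨hB1, hB2, -⟩, m, n, F, hF, hmain⟩ := K4H35.TN.main (S := Triv T E) ⟨_, ptC_mem⟩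
    triv_ss triv_prod triv_pow X hd hX
  have hsub : Subsingleton B.ι := Fintype.card_le_one_iff_subsingleton.1 (le_of_eq hB1)
  obtain ⟨b0⟩ : Nonempty B.ι := Fintype.card_pos_iff.1 (by omega)
  refine ⟨Finset.univ.sup n, fun N x hx => ?_⟩
  -- the columns of the correspondences
  let f : ∀ i, PL.T E X.ι (n i) := fun i w => F i w b0
  have hf : ∀ i, f i ∈ HT X (n i) := by
    intro i
    rw [mem_HT]
    intro θ
    have h1 : pa X (n i) θ * F i = F i * B.act θ := (hF i).2 θ
    rw [hB2, Matrix.mul_one] at h1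
    funext w
    exact congrFun (congrFun h1 w) b0
  have hx1 : IsTate ((ptC T E).prod (X.pow N)) (fun p : Unit × (Fin N → X.ι) => x p.2) := by
    intro θ
    funext p
    have h1 := congrFun ((mem_HT x).1 hx θ) p.2
    refine Eq.trans ?_ h1
    change ∑ r : Unit × (Fin N → X.ι), ((1 : Matrix Unit Unit E) p.1 r.1 * pa X N θ p.2 r.2) * x r.2 =
      ∑ w, pa X N θ p.2 w * x w
    rw [Fintype.sum_prod_type, Fintype.sum_unique]
    refine Finset.sum_congr rfl fun w _ => ?_
    change (1 : Matrix Unit Unit E) () () * _ * _ = _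
    rw [one_apply_eq, one_mul]
  have hx2 := (hmain (ptC T E) ptC_mem N _).1 hx1
  let L : (Unit × (Fin N → X.ι) → E) →ₗ[E] PL.T E X.ι N :=
    { toFun := fun y w => y ((), w)
      map_add' := fun _ _ => rfl
      map_smul' := fun _ _ => rfl }
  have hx3 : L (fun p : Unit × (Fin N → X.ι) => x p.2) ∈
      (transferredClasses (ptC T E) B X F N).map L := Submodule.mem_map_of_mem hx2
  have hx4 : L (fun p : Unit × (Fin N → X.ι) => x p.2) = x := rfl
  rw [hx4] at hx3
  refine (Submodule.map_le_iff_le_comap.2 (Submodule.span_le.2 ?_) :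
    (transferredClasses (ptC T E) B X F N).map L ≤ GG X (Finset.univ.sup n) N) hx3
  rintro _ ⟨t, c, e, G, -, rfl⟩
  change (fun w : Fin N → X.ι => ∑ u : Fin t → B.ι, G ((), u) *
    ∏ s, F (c s) (fun a => w (e ⟨s, a⟩)) (u s)) ∈ GG X (Finset.univ.sup n) N
  have h1 : (fun w : Fin N → X.ι => ∑ u : Fin t → B.ι, G ((), u) *
      ∏ s, F (c s) (fun a => w (e ⟨s, a⟩)) (u s)) =
      G ((), fun _ => b0) • (fun w : Fin N → X.ι => ∏ s, f (c s) fun a => w (e ⟨s, a⟩)) := by
    funext w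
    rw [Fintype.sum_eq_single (fun _ => b0) (fun u hu => absurd (Subsingleton.elim u _) hu)]
    rfl
  rw [h1]
  refine Submodule.smul_mem _ _ (Submodule.subset_span ?_)
  exact ⟨t, fun s => n (c s), e, fun s => f (c s),
    fun s => ⟨Finset.le_sup (f := n) (Finset.mem_univ (c s)), hf (c s)⟩, rfl⟩

/-- **A closed family which contains the Tate classes on finitely many powers contains all Tate
correspondences.** -/
theorem gen_family (X : Cohomology T E) (hX : ∀ n, IsSemisimple (X.pow n)) (hd : IsDual X) :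
    ∃ K : ℕ, ∀ (P : ∀ a c : ℕ, Matrix (X.pow c).ι (X.pow a).ι E → Prop), IsClosed X P →
      ∀ (q : Matrix X.ι X.ι E) (pt : X.ι → E) (d : X.ι → ℕ), IsPoincare X q pt →
      Planar X P q pt → Symmetric X P q d →
      (∀ n ≤ K, ∀ F : Matrix (X.pow n).ι (X.pow 0).ι E,
        IsCorrespondence (X.pow 0) (X.pow n) F → P 0 n F) →
      ∀ (a c : ℕ) (F : Matrix (X.pow c).ι (X.pow a).ι E),
        IsCorrespondence (X.pow a) (X.pow c) F → P a c F := by
  obtain ⟨K, hK⟩ := gen X hX hd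
  refine ⟨max K 4, fun P hP q pt d hq hc hs hbase a c F hF => ?_⟩
  have h := pair_tate hP hq hc hs
  have hcl : ∀ n ≤ max K 4, ∀ x : PL.T E X.ι n, TC X 0 n (cl x) → TP (X := X) P 0 n (cl x) :=
    fun n hn x hx => ⟨hx, hbase n hn _ hx⟩
  have hsw : TP (X := X) P 2 2 (ssw E fun _ => 0) :=
    h.full (a := 2) (c := 2) (fun x hx => hcl 4 (le_max_right _ _) x hx)
      (TC_ssw fun _ _ _ _ => rfl)
  have hall : ∀ (N : ℕ) (x : PL.T E X.ι N), TC X 0 N (cl x) → TP (X := X) P 0 N (cl x) := by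
    intro N x hx
    have h1 : x ∈ BB (TP (X := X) P) h.pl.clo h.pl.zero N := by
      refine (Submodule.span_le.2 ?_) (hK N x hx)
      rintro _ ⟨t, κ, e, b, hb, rfl⟩
      exact prod_cl h.pl.clo h.pl.idn hsw t κ b
        (fun s => hcl _ ((hb s).1.trans (le_max_left _ _)) _ (hb s).2) N e
    exact h1
  exact (h.full (a := a) (c := c) (fun x hx => hall _ x hx) hF).2

/-- **The majority law for Tate classes, for all powers.** -/
theorem law [CharZero E] (X : Cohomology T E) (hX : ∀ n, IsSemisimple (X.pow n))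
    (q : Matrix X.ι X.ι E) (pt : X.ι → E) (hq : IsPoincare X q pt) (ε : ℝ) (hε : 0 < ε) :
    ∃ M : ℕ, ∀ (P : ∀ a c : ℕ, Matrix (X.pow c).ι (X.pow a).ι E → Prop), IsClosed X P →
      ∀ d : X.ι → ℕ, Planar X P q pt → Symmetric X P q d →
      ∀ m, M ≤ m → (1 / 2 + ε) * (tateDim X m : ℝ) < classDim X P m →
      ∀ (a c : ℕ) (F : Matrix (X.pow c).ι (X.pow a).ι E),
        IsCorrespondence (X.pow a) (X.pow c) F → P a c F := by
  have hd : IsDual X := by
    refine ⟨?_, hq.one_tate, q, hq.det_ne, hq.inv⟩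
    intro h
    apply hq.pairing
    rw [h, zero_dotProduct]
  obtain ⟨K, hK⟩ := gen_family X hX hd
  choose M hM using fun n => half_tate (Fintype.card X.ι) n ε hε
  refine ⟨(Finset.range (K + 1)).sup M, fun P hP d hc hs m hm hlt => ?_⟩
  refine hK P hP q pt d hq hc hs ?_
  intro n hn F hF
  by_contra hFP
  have h1 := hM n T E X hX rfl P hP q pt d hq hc hs F hF hFP m
    ((Finset.le_sup (f := M) (Finset.mem_range.2 (by omega))).trans hm)
  linarith

end

end Pool.Agent.K4H54.PT
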